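import Pool.Agent.H581R3.GPR.Defs
import Pool.Agent.H780R2.GP.AB
import Pool.Agent.H780R2.GP.MV
import Pool.Agent.H780R2.GP.NZ
import Pool.Agent.H780R2.GP.ROT

/-!
# The Gaussian product inequality with real exponents: the integral of `FF` by the mean value property
-/

set_option autoImplicit false
open MeasureTheory ProbabilityTheory H780GP

namespace Pool.Agent.H581R3.GPR

open H780GP.ABaux (Lf_rot1 Lf_rot2 normz z_ne den_ne)

/-- `ζ + v² ζ̄` -/
noncomputable def nu (x θ : ℝ) (v : ℂ) : ℂ :=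
  ((x : ℂ) + Complex.I * (θ : ℂ)) + v ^ 2 * ((x : ℂ) - Complex.I * (θ : ℂ))

/-- `(1 + δ) ζ - (1 - δ) v² ζ̄` -/
noncomputable def de (δ x θ : ℝ) (v : ℂ) : ℂ :=
  (1 + (δ : ℂ)) * ((x : ℂ) + Complex.I * (θ : ℂ)) - (1 - (δ : ℂ)) *
          v ^ 2 * ((x : ℂ) - Complex.I * (θ : ℂ))

/-- The analytic extension of `t ↦ fac (rotated point)` to the unit disc. -/
noncomputable def HH (δ p : ℝ) (q : ℕ) (x θ : ℝ) (v : ℂ) : ℂ :=
  (nu x θ v / de δ x θ v) ^ (p : ℂ) * (2 * v * (de δ x θ v)⁻¹) ^ q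

theorem fac_rot (δ p : ℝ) (q : ℕ) (x θ t : ℝ) :
    fac δ p q (Real.cos t * x + Real.sin t * θ) (-Real.sin t * x + Real.cos t * θ)
      = HH δ p q x θ (Complex.exp (Complex.I * t)) := by
  unfold fac HH nu de
  set v := Complex.exp (Complex.I * t) with hv
  have hv0 : v ≠ 0 := Complex.exp_ne_zero _
  have hve : v = (Real.cos t : ℂ) + (Real.sin t : ℂ) * Complex.I := by
    rw [hv, mul_comm, Complex.exp_mul_I]; simp
  have hcs : (Real.cos t : ℂ) ^ 2 + (Real.sin t : ℂ) ^ 2 = 1 := by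
    have := Real.cos_sq_add_sin_sq t
    exact_mod_cast this
  have hI : Complex.I * Complex.I = -1 := Complex.I_mul_I
  generalize hc : (Real.cos t : ℂ) = c at *
  generalize hs : (Real.sin t : ℂ) = s at *
  have hA : v * (((Real.cos t * x + Real.sin t * θ : ℝ) : ℂ) +
      Complex.I * ((-Real.sin t * x + Real.cos t * θ : ℝ) : ℂ)) = (x : ℂ) + Complex.I * θ := by
    push_cast
    rw [← Complex.ofReal_cos, ← Complex.ofReal_sin, hc, hs, hve]
    linear_combination ((x : ℂ) + Complex.I * θ) * hcs + (s ^ 2 * (-(x:ℂ)) + s * c * θ ) * hI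
  have hB : (((Real.cos t * x + Real.sin t * θ : ℝ) : ℂ) -
      Complex.I * ((-Real.sin t * x + Real.cos t * θ : ℝ) : ℂ)) = v * ((x : ℂ) - Complex.I * θ) := by
    push_cast
    rw [← Complex.ofReal_cos, ← Complex.ofReal_sin, hc, hs, hve]
    linear_combination (s * θ) * hI
  generalize ((Real.cos t * x + Real.sin t * θ : ℝ) : ℂ) = X at *
  generalize ((-Real.sin t * x + Real.cos t * θ : ℝ) : ℂ) = T at *
  have e1 : X = (2 * v)⁻¹ *
      (((x : ℂ) + Complex.I * (θ : ℂ)) + v ^ 2 * ((x : ℂ) - Complex.I * (θ : ℂ))) := by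
    rw [eq_comm, inv_mul_eq_iff_eq_mul₀ (by simp [hv0])]
    linear_combination - hA - v * hB
  have e2 : (δ : ℂ) * X + Complex.I * T
      = (2 * v)⁻¹ * ((1 + (δ : ℂ)) * ((x : ℂ) + Complex.I * (θ : ℂ)) - (1 - (δ : ℂ)) *
          v ^ 2 * ((x : ℂ) - Complex.I * (θ : ℂ))) := by
    rw [eq_comm, inv_mul_eq_iff_eq_mul₀ (by simp [hv0])]
    linear_combination - (1 + (δ : ℂ)) * hA + (1 - (δ : ℂ)) * v * hB
  have h2v : (2 * v)⁻¹ ≠ 0 := inv_ne_zero (by simp [hv0])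
  rw [e2, e1, mul_div_mul_left _ _ h2v, mul_inv, inv_inv]

theorem re_nonneg {δ : ℝ} (hδ : 0 < δ) (x θ : ℝ) {v : ℂ} (hv : ‖v‖ ≤ 1) :
    0 ≤ (nu x θ v / de δ x θ v).re := by
  set ζ : ℂ := (x : ℂ) + Complex.I * (θ : ℂ) with hζ
  have hconj : (x : ℂ) - Complex.I * (θ : ℂ) = (starRingEnd ℂ) ζ := by
    rw [hζ]
    simp [sub_eq_add_neg]
  set w : ℂ := v ^ 2 * (starRingEnd ℂ) ζ with hw
  have hn : nu x θ v = ζ + w := by
    unfold nu
    rw [hconj, hw]
  have hd : de δ x θ v = (ζ - w) + δ * (ζ + w) := by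
    unfold de
    rw [hconj, hw]
    ring
  have hwn : ‖w‖ ≤ ‖ζ‖ := by
    rw [hw, norm_mul, norm_pow, Complex.norm_conj]
    have h5 : ‖v‖ ^ 2 ≤ 1 := pow_le_one₀ (norm_nonneg _) hv
    nlinarith [norm_nonneg ζ]
  rw [hn, hd, Complex.div_re]
  have hsq : Complex.normSq w ≤ Complex.normSq ζ := by
    rw [← Complex.sq_norm, ← Complex.sq_norm]
    exact pow_le_pow_left₀ (norm_nonneg _) hwn 2
  rw [Complex.normSq_apply, Complex.normSq_apply] at hsq
  rw [← add_div]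
  apply div_nonneg _ (Complex.normSq_nonneg _)
  simp only [Complex.add_re, Complex.add_im, Complex.sub_re, Complex.sub_im, Complex.mul_re,
    Complex.mul_im, Complex.ofReal_re, Complex.ofReal_im]
  have h1 : 0 ≤ δ * ((ζ.re + w.re) ^ 2 + (ζ.im + w.im) ^ 2) := by positivity
  nlinarith

theorem re_pos {δ : ℝ} (hδ : 0 < δ) (hδ1 : δ < 1) {x : ℝ} (θ : ℝ) (hx : x ≠ 0) {v : ℂ}
    (hv : ‖v‖ < 1) : 0 < (nu x θ v / de δ x θ v).re := by
  have hden := den_ne hδ hδ1 θ hx hv.le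
  set ζ : ℂ := (x : ℂ) + Complex.I * (θ : ℂ) with hζ
  have hζ0 : ζ ≠ 0 := z_ne θ hx
  have hconj : (x : ℂ) - Complex.I * (θ : ℂ) = (starRingEnd ℂ) ζ := by
    rw [hζ]
    simp [sub_eq_add_neg]
  set w : ℂ := v ^ 2 * (starRingEnd ℂ) ζ with hw
  have hn : nu x θ v = ζ + w := by
    unfold nu
    rw [hconj, hw]
  have hd : de δ x θ v = (ζ - w) + δ * (ζ + w) := by
    unfold de
    rw [hconj, hw]
    ring
  have hd0 : de δ x θ v ≠ 0 := hden
  rw [hd] at hd0
  have hwn : ‖w‖ < ‖ζ‖ := by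
    rw [hw, norm_mul, norm_pow, Complex.norm_conj]
    have h5 : ‖v‖ ^ 2 < 1 := pow_lt_one₀ (norm_nonneg _) hv (by norm_num)
    have h6 : 0 < ‖ζ‖ := norm_pos_iff.mpr hζ0
    nlinarith
  rw [hn, hd, Complex.div_re]
  have hsq : Complex.normSq w < Complex.normSq ζ := by
    rw [← Complex.sq_norm, ← Complex.sq_norm]
    exact pow_lt_pow_left₀ hwn (norm_nonneg _) (by norm_num)
  rw [Complex.normSq_apply, Complex.normSq_apply] at hsq
  rw [← add_div]
  apply div_pos _ (Complex.normSq_pos.mpr hd0)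
  simp only [Complex.add_re, Complex.add_im, Complex.sub_re, Complex.sub_im, Complex.mul_re,
    Complex.mul_im, Complex.ofReal_re, Complex.ofReal_im]
  have h1 : 0 ≤ δ * ((ζ.re + w.re) ^ 2 + (ζ.im + w.im) ^ 2) := by positivity
  nlinarith

theorem HH_diff {δ p : ℝ} (hδ : 0 < δ) (hδ1 : δ < 1) (hp : 0 < p) (q : ℕ) {x : ℝ} (θ : ℝ)
    (hx : x ≠ 0) : DiffContOnCl ℂ (HH δ p q x θ) (Metric.ball 0 1) := by
  have hcl : closure (Metric.ball (0 : ℂ) 1) = Metric.closedBall 0 1 :=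
    closure_ball _ one_ne_zero
  have hden : ∀ v : ℂ, ‖v‖ ≤ 1 → de δ x θ v ≠ 0 := fun v hv => den_ne hδ hδ1 θ hx hv
  have hnd : ∀ v : ℂ, DifferentiableAt ℂ (nu x θ) v := by
    intro v
    unfold nu
    fun_prop
  have hdd : ∀ v : ℂ, DifferentiableAt ℂ (de δ x θ) v := by
    intro v
    unfold de
    fun_prop
  have hR : ∀ v : ℂ, ‖v‖ ≤ 1 → DifferentiableAt ℂ (fun v => nu x θ v / de δ x θ v) v :=
    fun v hv => (hnd v).div (hdd v) (hden v hv)
  have hQ : ∀ v : ℂ, ‖v‖ ≤ 1 →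
      DifferentiableAt ℂ (fun v => (2 * v * (de δ x θ v)⁻¹) ^ q) v := fun v hv =>
    (((differentiableAt_id.const_mul 2).mul ((hdd v).inv (hden v hv))).pow q)
  constructor
  · intro v hv
    have hv' : ‖v‖ < 1 := by simpa using hv
    apply DifferentiableAt.differentiableWithinAt
    unfold HH
    refine DifferentiableAt.mul ?_ (hQ v hv'.le)
    refine (hR v hv'.le).cpow_const ?_
    left
    exact re_pos hδ hδ1 θ hx hv'
  · rw [hcl]
    intro v hv
    have hv' : ‖v‖ ≤ 1 := by simpa using hv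
    apply ContinuousAt.continuousWithinAt
    unfold HH
    refine ContinuousAt.mul ?_ (hQ v hv').continuousAt
    have h1 := Complex.continuousAt_cpow_of_re_pos (p := (nu x θ v / de δ x θ v, (p : ℂ)))
      (Or.inl (re_nonneg hδ x θ hv')) (by simpa using hp)
    have h2 : ContinuousAt (fun v : ℂ => ((nu x θ v / de δ x θ v, (p : ℂ)) : ℂ × ℂ)) v :=
      (hR v hv').continuousAt.prodMk continuousAt_const
    exact ContinuousAt.comp (f := fun v : ℂ => ((nu x θ v / de δ x θ v, (p : ℂ)) : ℂ × ℂ))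
      (g := fun x : ℂ × ℂ => x.1 ^ x.2) h1 h2

theorem HH_zero {δ p : ℝ} (hδ : 0 < δ) (q : ℕ) {x : ℝ} (θ : ℝ) (hx : x ≠ 0) :
    HH δ p q x θ 0 = if q = 0 then ((((1 + δ) ^ p)⁻¹ : ℝ) : ℂ) else 0 := by
  unfold HH nu de
  split_ifs with h
  · subst h
    have hz := z_ne θ hx
    have h1 : (1 + (δ : ℂ)) ≠ 0 := by
      have : (1 + (δ : ℂ)) = ((1 + δ : ℝ) : ℂ) := by push_cast; ring
      rw [this]
      exact Complex.ofReal_ne_zero.mpr (by positivity)
    have h2 : (((x : ℂ) + Complex.I * (θ : ℂ)) + 0 ^ 2 * ((x : ℂ) - Complex.I * (θ : ℂ))) /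
        ((1 + (δ : ℂ)) * ((x : ℂ) + Complex.I * (θ : ℂ)) - (1 - (δ : ℂ)) *
          0 ^ 2 * ((x : ℂ) - Complex.I * (θ : ℂ))) = (((1 + δ)⁻¹ : ℝ) : ℂ) := by
      push_cast
      simp only [ne_eq, OfNat.ofNat_ne_zero, not_false_eq_true, zero_pow, zero_mul, add_zero,
        mul_zero, sub_zero]
      field_simp
    rw [h2, pow_zero, mul_one, ← Complex.ofReal_cpow (by positivity),
      Real.inv_rpow (by positivity)]
  · simp [h]

theorem t_AB (n d : ℕ) (l : Fin d → ((Fin n → ℝ) →ₗ[ℝ] ℝ)) (ε δ : ℝ) (hε : 0 < ε) (hδ : 0 < δ)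
    (hδ1 : δ < 1) (p : Fin d → ℝ) (hp : ∀ k, 0 < p k) (q : Fin d → ℕ)
    (hint : Integrable (FF l ε δ p q) (PP n d)) :
    ∫ Z, FF l ε δ p q Z ∂(PP n d) =
      ∏ k, (if q k = 0 then ((((1 + δ) ^ (p k))⁻¹ : ℝ) : ℂ) else 0) := by
  have hnz : ∀ᵐ Z ∂(PP n d), ∀ k, Lf l ε k Z.1 ≠ 0 := by
    have h1 := t_NZ n d l ε hε
    have h2 : Filter.Tendsto (Prod.fst : V n d × V n d → V n d) (ae (PP n d)) (ae (mu n d)) := by
      unfold PP
      exact Measure.quasiMeasurePreserving_fst.tendsto_ae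
    exact h2.eventually h1
  have key := t_MV t_ROT n d (FF l ε δ p q)
    (fun Z v => ∏ k, HH δ (p k) (q k) (Lf l ε k Z.1) (Lf l ε k Z.2) v)
    (meas_FF l ε δ p q) hint ?_
  · rw [key]
    have : ∀ᵐ Z ∂(PP n d), (∏ k, HH δ (p k) (q k) (Lf l ε k Z.1) (Lf l ε k Z.2) 0)
        = ∏ k, (if q k = 0 then ((((1 + δ) ^ (p k))⁻¹ : ℝ) : ℂ) else 0) := by
      filter_upwards [hnz] with Z hZ
      exact Finset.prod_congr rfl (fun k _ => HH_zero hδ _ _ (hZ k))
    rw [integral_congr_ae this]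
    have hp : IsProbabilityMeasure (PP n d) := by
      unfold PP mu gam
      infer_instance
    rw [integral_const]
    simp
  · filter_upwards [hnz] with Z hZ
    refine ⟨?_, ?_⟩
    · have hall : ∀ k, DiffContOnCl ℂ (HH δ (p k) (q k) (Lf l ε k Z.1) (Lf l ε k Z.2))
          (Metric.ball 0 1) := fun k => HH_diff hδ hδ1 (hp k) _ _ (hZ k)
      constructor
      · have := fun k => (hall k).differentiableOn
        exact DifferentiableOn.fun_finsetProd (fun k _ => this k)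
      · exact continuousOn_finsetProd _ (fun k _ => (hall k).continuousOn)
    · intro t
      unfold FF
      refine Finset.prod_congr rfl (fun k _ => ?_)
      rw [Lf_rot1, Lf_rot2, fac_rot]

end Pool.Agent.H581R3.GPR
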