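import Pool.Agent.H780R2.GP.Defs

/-!
# The Gaussian product inequality with real exponents: definitions

A generalisation of the development `Pool/Agent/H780R2/GP` (integer exponents, helper780 and others)
to arbitrary positive real exponents.
-/

set_option autoImplicit false
open MeasureTheory ProbabilityTheory H780GP

namespace Pool.Agent.H581R3.GPR

/-- One factor `(x / (δ x + i θ))^p (δ x + i θ)^(-q)`, `p` real. -/
noncomputable def fac (δ p : ℝ) (q : ℕ) (x θ : ℝ) : ℂ :=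
  ((x : ℂ) / ((δ : ℂ) * (x : ℂ) + Complex.I * (θ : ℂ))) ^ (p : ℂ) *
    (((δ : ℂ) * (x : ℂ) + Complex.I * (θ : ℂ))⁻¹) ^ q

/-- The product of the factors, `x_k = Lf k Z.1`, `θ_k = Lf k Z.2`. -/
noncomputable def FF {n d : ℕ} (l : Fin d → ((Fin n → ℝ) →ₗ[ℝ] ℝ)) (ε δ : ℝ) (p : Fin d → ℝ)
    (q : Fin d → ℕ) (Z : V n d × V n d) : ℂ :=
  ∏ k, fac δ (p k) (q k) (Lf l ε k Z.1) (Lf l ε k Z.2)

/-- The one dimensional weight `a^(p-1) exp(-δ a) / Γ(p)`. -/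
noncomputable def wt (δ p a : ℝ) : ℝ :=
  a ^ (p - 1) * Real.exp (-(δ * a)) / Real.Gamma p

/-- `φ(x) = ∫_0^∞ wt(a) exp(-G a²/(2x²)) da`. -/
noncomputable def phi (δ p G x : ℝ) : ℝ :=
  ∫ a in Set.Ioi (0 : ℝ), wt δ p a * Real.exp (-(1 / 2) * (G * (a / x) ^ 2))

/-- `ρ = ∫_0^∞ b^(p-1) exp(-G b²/2) db / Γ(p)`. -/
noncomputable def rho (p G : ℝ) : ℝ :=
  ∫ b in Set.Ioi (0 : ℝ), b ^ (p - 1) / Real.Gamma p * Real.exp (-(1 / 2) * (G * b ^ 2))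

/-- the denominator has square norm `δ² x² + θ²` -/
theorem den_sq (δ x θ : ℝ) :
    ‖(δ : ℂ) * (x : ℂ) + Complex.I * (θ : ℂ)‖ ^ 2 = δ ^ 2 * x ^ 2 + θ ^ 2 := by
  rw [Complex.sq_norm, Complex.normSq_apply]
  simp
  ring

theorem ratio_le (δ x θ : ℝ) (hδ : 0 < δ) :
    |x| / ‖(δ : ℂ) * (x : ℂ) + Complex.I * (θ : ℂ)‖ ≤ δ⁻¹ := by
  have h := den_sq δ x θ
  set D := ‖(δ : ℂ) * (x : ℂ) + Complex.I * (θ : ℂ)‖ with hD
  have hD0 : 0 ≤ D := norm_nonneg _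
  have h1 : δ * |x| ≤ D := by
    apply abs_le_of_sq_le_sq' _ hD0 |>.2
    rw [mul_pow, sq_abs, h]
    nlinarith [sq_nonneg θ]
  rcases eq_or_lt_of_le hD0 with h2 | h2
  · rw [← h2, div_zero]
    positivity
  · rw [div_le_iff₀ h2, inv_mul_eq_div, le_div_iff₀ hδ]
    linarith

theorem norm_fac (δ p : ℝ) (q : ℕ) (x θ : ℝ) :
    ‖fac δ p q x θ‖ = (|x| / ‖(δ : ℂ) * (x : ℂ) + Complex.I * (θ : ℂ)‖) ^ p *
      (‖(δ : ℂ) * (x : ℂ) + Complex.I * (θ : ℂ)‖⁻¹) ^ q := by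
  unfold fac
  rw [norm_mul, Complex.norm_cpow_real, norm_div, Complex.norm_real, Real.norm_eq_abs, norm_pow,
    norm_inv]

theorem meas_fac (δ p : ℝ) (q : ℕ) : Measurable (fun z : ℝ × ℝ => fac δ p q z.1 z.2) := by
  unfold fac
  have h1 : Measurable (fun z : ℝ × ℝ => (δ : ℂ) * (z.1 : ℂ) + Complex.I * (z.2 : ℂ)) := by
    fun_prop
  have h2 : Measurable (fun z : ℝ × ℝ => (z.1 : ℂ) / ((δ : ℂ) * (z.1 : ℂ) + Complex.I * (z.2 : ℂ))) :=
    (by fun_prop : Measurable (fun z : ℝ × ℝ => (z.1 : ℂ))).div h1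
  exact (h2.pow_const _).mul (h1.inv.pow_const _)

theorem meas_Lf {n d : ℕ} (l : Fin d → ((Fin n → ℝ) →ₗ[ℝ] ℝ)) (ε : ℝ) (k : Fin d) :
    Measurable (fun w : V n d => Lf l ε k w) := by
  have h1 : Continuous (l k) := LinearMap.continuous_of_finiteDimensional (l k)
  unfold Lf
  have h2 : Continuous (fun w : V n d => (l k) w.1 + ε * w.2 k) := by fun_prop
  exact h2.measurable

theorem meas_FF {n d : ℕ} (l : Fin d → ((Fin n → ℝ) →ₗ[ℝ] ℝ)) (ε δ : ℝ) (p : Fin d → ℝ)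
    (q : Fin d → ℕ) : Measurable (FF l ε δ p q) := by
  unfold FF
  refine Finset.measurable_prod _ fun k _ => ?_
  exact (meas_fac δ (p k) (q k)).comp
    (((meas_Lf l ε k).comp measurable_fst).prodMk ((meas_Lf l ε k).comp measurable_snd))

end Pool.Agent.H581R3.GPR
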