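import Pool.Agent.H581R3.GPR.Defs
import Pool.Agent.H581R3.GPR.Rot
import Pool.Agent.H780R2.GP.CHF
import Pool.Agent.H780R2.GP.FH

/-!
# The Gaussian product inequality with real exponents: integrating out the second vector
-/

set_option autoImplicit false
open MeasureTheory ProbabilityTheory H780GP

namespace Pool.Agent.H581R3.GPR

open Set Filter

theorem intb (b : ℝ) (hb : 0 < b) (s : ℝ) (hs : -1 < s) :
    IntegrableOn (fun a : ℝ => a ^ s * Real.exp (-(b * a))) (Ioi 0) := by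
  have h := integrableOn_rpow_mul_exp_neg_mul_rpow (p := 1) (s := s) (b := b) hs one_pos hb
  refine h.congr_fun ?_ measurableSet_Ioi
  intro a _
  simp only [Real.rpow_one]
  congr 2
  ring

/-- the one-dimensional integrand (real part of the weight) -/
noncomputable def rk (δ p : ℝ) (q : ℕ) (x a : ℝ) : ℝ :=
  a ^ (p + q - 1) * Real.exp (-(δ * a)) / (Real.Gamma (p + q) * x ^ q)

theorem rk_int (δ : ℝ) (hδ : 0 < δ) (p : ℝ) (hp : 0 < p) (q : ℕ) (x : ℝ) :
    Integrable (rk δ p q x) ((volume : Measure ℝ).restrict (Ioi 0)) := by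
  have hq : (0 : ℝ) ≤ q := Nat.cast_nonneg q
  have h := (intb δ hδ (p + q - 1) (by linarith)).div_const (Real.Gamma (p + q) * x ^ q)
  exact h

theorem rk_meas (δ p : ℝ) (q : ℕ) (x : ℝ) : Measurable (rk δ p q x) := by
  unfold rk
  fun_prop

theorem fac_eq (δ : ℝ) (hδ : 0 < δ) (p : ℝ) (q : ℕ) (hp : 0 < p) (x : ℝ) (hx : x ≠ 0) (θ : ℝ) :
    fac δ p q x θ = ∫ a in Ioi (0 : ℝ), ((rk δ p q x a : ℝ) : ℂ) *
      Complex.exp (-Complex.I * ((a / x * θ : ℝ) : ℂ)) := by
  have hq : (0 : ℝ) ≤ q := Nat.cast_nonneg q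
  have hxc : (x : ℂ) ≠ 0 := by exact_mod_cast hx
  set s : ℂ := (δ : ℂ) + Complex.I * ((θ / x : ℝ) : ℂ) with hs
  have hsre : 0 < s.re := by
    rw [hs]
    simp [hδ]
  have hs0 : s ≠ 0 := by
    intro h
    rw [h] at hsre
    simp at hsre
  have hG : (Real.Gamma (p + q) : ℝ) ≠ 0 := (Real.Gamma_pos_of_pos (by linarith)).ne'
  have hGc : ((Real.Gamma (p + q) : ℝ) : ℂ) ≠ 0 := by exact_mod_cast hG
  have h1 : ∀ a ∈ Ioi (0 : ℝ), ((rk δ p q x a : ℝ) : ℂ) *
      Complex.exp (-Complex.I * ((a / x * θ : ℝ) : ℂ)) =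
      (1 / (((Real.Gamma (p + q) : ℝ) : ℂ) * (x : ℂ) ^ q)) *
        ((a : ℂ) ^ ((((p + q : ℝ)) : ℂ) - 1) * Complex.exp (-(s * a))) := by
    intro a ha
    have ha' : (0 : ℝ) < a := ha
    unfold rk
    have h2 : Complex.exp (-(s * a)) = Complex.exp (-((δ : ℂ) * a)) *
        Complex.exp (-Complex.I * ((a / x * θ : ℝ) : ℂ)) := by
      rw [← Complex.exp_add]
      congr 1
      rw [hs]
      push_cast
      field_simp
      ring
    have h3 : (a : ℂ) ^ ((((p + q : ℝ)) : ℂ) - 1) = ((a ^ (p + q - 1) : ℝ) : ℂ) := by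
      rw [Complex.ofReal_cpow ha'.le]
      push_cast
      rfl
    rw [h2, h3]
    push_cast
    ring
  rw [setIntegral_congr_fun measurableSet_Ioi h1, integral_const_mul,
    Rot.rot_formula (by simp; linarith) hsre]
  unfold fac
  have h3 : (δ : ℂ) * (x : ℂ) + Complex.I * (θ : ℂ) = (x : ℂ) * s := by
    rw [hs]
    push_cast
    field_simp
  have h4 : (x : ℂ) / ((x : ℂ) * s) = 1 / s := by
    field_simp
  have h5 : (1 / s) ^ (((p + q : ℝ)) : ℂ) = (1 / s) ^ (p : ℂ) * (1 / s) ^ q := by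
    have h6 : (1 / s) ≠ 0 := one_div_ne_zero hs0
    push_cast
    rw [Complex.cpow_add _ _ h6, Complex.cpow_natCast]
  rw [h3, h4, h5, Complex.Gamma_ofReal, mul_inv, mul_pow]
  have h7 : (1 / s) ^ q = (s⁻¹) ^ q := by rw [one_div]
  rw [h7, inv_pow (x : ℂ) q]
  field_simp

theorem t_FH (n d : ℕ) (l : Fin d → ((Fin n → ℝ) →ₗ[ℝ] ℝ)) (ε δ : ℝ) (hδ : 0 < δ)
    (p : Fin d → ℝ) (hp : ∀ k, 0 < p k) (q : Fin d → ℕ) (x : Fin d → ℝ) (hx : ∀ k, x k ≠ 0) :
    ∫ h, (∏ k, fac δ (p k) (q k) (x k) (Lf l ε k h)) ∂(mu n d)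
    = ((∫ a, (∏ k, rk δ (p k) (q k) (x k) (a k))
        * Real.exp (-(1 / 2) * VV l ε (fun k => a k / x k)) ∂(orth d) : ℝ) : ℂ) := by
  have hCHF := t_CHF
  -- the integrand
  let W : (Fin d → ℝ) → ℝ := fun a => ∏ k, rk δ (p k) (q k) (x k) (a k)
  have hWint : Integrable W (orth d) := by
    have := Integrable.fintype_prod (μ := fun _ : Fin d => (volume : Measure ℝ).restrict (Set.Ioi 0))
      (f := fun k a => rk δ (p k) (q k) (x k) a) (fun k => rk_int δ hδ (p k) (hp k) (q k) (x k))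
    exact this
  have hWm : Measurable W := by
    refine Finset.measurable_prod _ fun k _ => ?_
    exact (rk_meas δ (p k) (q k) (x k)).comp (measurable_pi_apply k)
  let F : V n d → (Fin d → ℝ) → ℂ := fun h a =>
    ((W a : ℝ) : ℂ) * Complex.exp (-Complex.I * ((∑ k, a k / x k * Lf l ε k h : ℝ) : ℂ))
  have h1 : ∀ h : V n d, ∏ k, fac δ (p k) (q k) (x k) (Lf l ε k h) = ∫ a, F h a ∂(orth d) := by
    intro h
    have h2 : ∀ k, fac δ (p k) (q k) (x k) (Lf l ε k h) = ∫ a in Set.Ioi (0 : ℝ),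
        ((rk δ (p k) (q k) (x k) a : ℝ) : ℂ) *
          Complex.exp (-Complex.I * ((a / x k * Lf l ε k h : ℝ) : ℂ)) := fun k =>
      fac_eq δ hδ (p k) (q k) (hp k) (x k) (hx k) _
    simp_rw [h2]
    rw [← integral_fintype_prod_eq_prod (𝕜 := ℂ) (ι := Fin d) (E := fun _ => ℝ)
      (μ := fun _ : Fin d => (volume : Measure ℝ).restrict (Set.Ioi 0))
      (fun k a => ((rk δ (p k) (q k) (x k) a : ℝ) : ℂ) *
          Complex.exp (-Complex.I * ((a / x k * Lf l ε k h : ℝ) : ℂ)))]
    unfold orth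
    apply integral_congr_ae
    refine Filter.Eventually.of_forall fun a => ?_
    simp only [F, W]
    rw [Finset.prod_mul_distrib, ← Complex.exp_sum]
    push_cast
    rw [Finset.mul_sum]
  have hFm : Measurable (Function.uncurry F) := by
    have h3 : ∀ k, Measurable (fun z : V n d × (Fin d → ℝ) => Lf l ε k z.1) := fun k =>
      (meas_Lf l ε k).comp measurable_fst
    have h4 : ∀ k, Measurable (fun z : V n d × (Fin d → ℝ) => z.2 k) := fun k =>
      (measurable_pi_apply k).comp measurable_snd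
    have h5 : Measurable (fun z : V n d × (Fin d → ℝ) =>
        (∑ k, z.2 k / x k * Lf l ε k z.1 : ℝ)) := by
      refine Finset.measurable_sum _ fun k _ => ?_
      exact ((h4 k).div_const _).mul (h3 k)
    have h6 : Measurable (fun z : V n d × (Fin d → ℝ) => W z.2) := hWm.comp measurable_snd
    exact (Complex.measurable_ofReal.comp h6).mul
      (Complex.measurable_exp.comp ((Complex.measurable_ofReal.comp h5).const_mul _))
  have hFint : Integrable (Function.uncurry F) ((mu n d).prod (orth d)) := by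
    have h3 : Integrable (fun z : V n d × (Fin d → ℝ) => |W z.2|) ((mu n d).prod (orth d)) := by
      exact (hWint.abs).comp_snd (mu n d)
    refine Integrable.mono' h3 hFm.aestronglyMeasurable ?_
    refine Filter.Eventually.of_forall fun z => ?_
    simp only [Function.uncurry, F]
    rw [norm_mul, Complex.norm_real, Real.norm_eq_abs]
    have h4 : ‖Complex.exp (-Complex.I * ((∑ k, z.2 k / x k * Lf l ε k z.1 : ℝ) : ℂ))‖ = 1 := by
      rw [neg_mul, mul_comm, ← neg_mul, ← Complex.ofReal_neg]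
      exact Complex.norm_exp_ofReal_mul_I _
    rw [h4, mul_one]
  simp_rw [h1]
  rw [integral_integral_swap hFint]
  rw [← integral_complex_ofReal]
  apply integral_congr_ae
  refine Filter.Eventually.of_forall fun a => ?_
  simp only [F]
  rw [integral_const_mul, hCHF n d l ε (fun k => a k / x k)]
  simp only [W]
  push_cast
  rfl

end Pool.Agent.H581R3.GPR
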