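import Pool.Agent.H581R3.GPR.Defs
import Pool.Agent.H780R2.GP.MOM
import Pool.Agent.H780R2.GP.GP

/-!
# The Gaussian product inequality with real exponents: the absolute moments
-/

set_option autoImplicit false
open MeasureTheory ProbabilityTheory H780GP

namespace Pool.Agent.H581R3.GPR

lemma rho_eq {p : ℝ} (hp : 0 < p) {G : ℝ} (hG : 0 < G) :
    rho p G = (1 / Real.Gamma p) * ((G / 2) ^ (-(p : ℝ) / 2) * (1 / 2) * Real.Gamma (p / 2)) := by
  have h := integral_rpow_mul_exp_neg_mul_rpow (p := 2) (q := (p : ℝ) - 1) (b := G / 2)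
    two_pos (by linarith) (by positivity)
  rw [show (p : ℝ) - 1 + 1 = p by ring] at h
  rw [← h]
  unfold rho
  rw [← integral_const_mul]
  refine setIntegral_congr_fun measurableSet_Ioi (fun b hb => ?_)
  have e2 : b ^ (2 : ℝ) = b ^ 2 := Real.rpow_two b
  simp only [e2]
  rw [show -(1 / 2) * (G * b ^ 2) = -(G / 2) * b ^ 2 by ring]
  ring

lemma mom_eq {p : ℝ} (hp : 0 < p) {G : ℝ} (hG : 0 < G) :
    ∫ x, |x| ^ p ∂(gaussianReal 0 G.toNNReal)
      = (Real.sqrt (2 * Real.pi * G))⁻¹ * (2 * (((2 * G)⁻¹) ^ (-((p : ℝ) + 1) / 2) * (1 / 2)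
        * Real.Gamma (((p : ℝ) + 1) / 2))) := by
  have hv : G.toNNReal ≠ 0 := by
    simpa using hG
  have hc : ((G.toNNReal : NNReal) : ℝ) = G := Real.coe_toNNReal G hG.le
  rw [integral_gaussianReal_eq_integral_smul hv]
  have h := integral_rpow_mul_exp_neg_mul_rpow (p := 2) (q := (p : ℝ)) (b := (2 * G)⁻¹)
    two_pos (by linarith) (by positivity)
  rw [← h, ← integral_comp_abs (f := fun x => x ^ (p : ℝ) * Real.exp (-(2 * G)⁻¹ * x ^ (2 : ℝ))),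
    ← integral_const_mul]
  congr 1
  ext x
  simp only [gaussianPDFReal, hc, smul_eq_mul, sub_zero, Real.rpow_two, sq_abs]
  rw [show -x ^ 2 / (2 * G) = -(2 * G)⁻¹ * x ^ 2 by field_simp]
  ring

open MOM264 in
theorem t_MOM (n d : ℕ) (l : Fin d → ((Fin n → ℝ) →ₗ[ℝ] ℝ)) (ε : ℝ) (hε : 0 < ε)
    (p : ℝ) (hp : 0 < p) (k : Fin d) :
    rho p (GG l ε k k) * ∫ w, |Lf l ε k w| ^ p ∂(mu n d) = 1 := by
  have hG := t_GP n d l ε hε k
  set G := GG l ε k k with hGdef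
  have h1 : ∫ w, |Lf l ε k w| ^ p ∂(mu n d) = ∫ x, |x| ^ p ∂(gaussianReal 0 G.toNNReal) := by
    have hc : Continuous (fun x : ℝ => |x| ^ p) :=
      continuous_abs.rpow_const fun x => Or.inr hp.le
    rw [← law l ε k, integral_map (by fun_prop) hc.aestronglyMeasurable]
    simp only [LL_apply]
  rw [h1, rho_eq hp hG, mom_eq hp hG]
  have hdup := Real.Gamma_mul_Gamma_add_half ((p : ℝ) / 2)
  have hΓ : 0 < Real.Gamma p := Real.Gamma_pos_of_pos (by linarith)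
  have e0 : (p : ℝ) / 2 + 1 / 2 = ((p : ℝ) + 1) / 2 := by ring
  have e00 : 2 * ((p : ℝ) / 2) = p := by ring
  rw [e0, e00] at hdup
  have h2G : (0 : ℝ) < 2 * G := by positivity
  have hG2 : (0 : ℝ) < G / 2 := by positivity
  have e1 : ((2 * G)⁻¹) ^ (-((p : ℝ) + 1) / 2) = (2 * G) ^ ((p : ℝ) / 2) * Real.sqrt (2 * G) := by
    rw [Real.inv_rpow h2G.le, ← Real.rpow_neg h2G.le, Real.sqrt_eq_rpow, ← Real.rpow_add h2G]
    congr 1; ring
  have e2 : (G / 2) ^ (-(p : ℝ) / 2) * (2 * G) ^ ((p : ℝ) / 2) = 2 ^ (p : ℝ) := by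
    rw [neg_div, Real.rpow_neg hG2.le, ← Real.inv_rpow hG2.le, ← Real.mul_rpow (by positivity) h2G.le]
    rw [show (G / 2)⁻¹ * (2 * G) = 2 ^ (2 : ℝ) by rw [Real.rpow_two]; field_simp, ← Real.rpow_mul (by norm_num)]
    congr 1
    try ring
  have e3 : Real.sqrt (2 * Real.pi * G) = Real.sqrt (2 * G) * Real.sqrt Real.pi := by
    rw [← Real.sqrt_mul h2G.le]; congr 1; ring
  rw [e1, e3]
  have hs1 : 0 < Real.sqrt (2 * G) := Real.sqrt_pos.mpr h2G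
  have hs2 : 0 < Real.sqrt Real.pi := Real.sqrt_pos.mpr Real.pi_pos
  have key : (1 / Real.Gamma p) * ((G / 2) ^ (-(p : ℝ) / 2) * (1 / 2) * Real.Gamma (p / 2)) *
      ((Real.sqrt (2 * G) * Real.sqrt Real.pi)⁻¹ * (2 * ((2 * G) ^ ((p : ℝ) / 2) * Real.sqrt (2 * G)
        * (1 / 2) * Real.Gamma (((p : ℝ) + 1) / 2))))
      = (1 / 2) * ((G / 2) ^ (-(p : ℝ) / 2) * (2 * G) ^ ((p : ℝ) / 2)) *
        (Real.Gamma (p / 2) * Real.Gamma (((p : ℝ) + 1) / 2)) / (Real.Gamma p * Real.sqrt Real.pi) := by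
    field_simp
  rw [key, e2, hdup]
  have h2p : (2 : ℝ) ^ (p : ℝ) * 2 ^ (1 - (p : ℝ)) = 2 := by
    rw [← Real.rpow_add (by norm_num)]; norm_num
  have : 1 / 2 * (2 : ℝ) ^ (p : ℝ) * (Real.Gamma p * 2 ^ (1 - (p : ℝ)) * Real.sqrt Real.pi)
      = (1 / 2) * ((2 : ℝ) ^ (p : ℝ) * 2 ^ (1 - (p : ℝ))) * (Real.Gamma p * Real.sqrt Real.pi) := by ring
  rw [this, h2p]
  field_simp

end Pool.Agent.H581R3.GPR
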