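import Pool.Agent.H581R3.GPR.M1
import Pool.Agent.H581R3.GPR.MOM
import Pool.Agent.H780R2.GP.LIM
import Pool.Agent.H780R2.GP.IP

/-!
# The Gaussian product inequality with real exponents: conclusion for linear forms
-/

set_option autoImplicit false
open MeasureTheory ProbabilityTheory H780GP

namespace Pool.Agent.H581R3.GPR

theorem dom_int (n d : ℕ) (C : ℝ) (N : ℕ) :
    Integrable (fun w : V n d => (1 + C * ‖w‖) ^ N) (mu n d) := by
  have h1 : MemLp (fun w : V n d => (1 : ℝ)) N (mu n d) := memLp_const 1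
  have h2 : MemLp (fun w : V n d => C * ‖w‖) N (mu n d) := ((IP_mu n d N).norm).const_mul C
  have h3 : MemLp (fun w : V n d => 1 + C * ‖w‖) N (mu n d) := h1.add h2
  have h4 := h3.integrable_norm_pow'
  have h5 : Continuous (fun w : V n d => (1 + C * ‖w‖) ^ N) := by fun_prop
  refine h4.mono' h5.aestronglyMeasurable (Filter.Eventually.of_forall fun w => ?_)
  rw [norm_pow]

theorem dom_bd {n d : ℕ} (l : Fin d → ((Fin n → ℝ) →ₗ[ℝ] ℝ)) :
    ∃ C : ℝ, 0 ≤ C ∧ ∀ ε : ℝ, 0 ≤ ε → ε < 1 → ∀ (w : V n d) (k : Fin d),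
      |Lf l ε k w| ≤ C * ‖w‖ := by
  choose C hC0 hC using lim_bd l
  have hC' : ∀ k, ∀ ε : ℝ, 0 ≤ ε → ε < 1 → ∀ w : V n d, |Lf l ε k w| ≤ C k * ‖w‖ := by
    intro k ε h0 h1 w
    rcases eq_or_lt_of_le h0 with h | h
    · have hcont : Continuous (fun e : ℝ => |Lf l e k w|) := by
        unfold Lf
        fun_prop
      have ht : Filter.Tendsto (fun e : ℝ => |Lf l e k w|) (nhdsWithin 0 (Set.Ioi 0))
          (nhds |Lf l 0 k w|) := (hcont.tendsto 0).mono_left nhdsWithin_le_nhds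
      rw [← h]
      refine le_of_tendsto ht ?_
      have : Set.Ioo (0 : ℝ) 1 ∈ nhdsWithin (0 : ℝ) (Set.Ioi 0) := Ioo_mem_nhdsGT one_pos
      filter_upwards [this] with e he
      exact hC k e he.1 he.2 w
    · exact hC k ε h h1 w
  refine ⟨∑ k, C k, Finset.sum_nonneg fun k _ => hC0 k, fun ε h0 h1 w k => ?_⟩
  refine (hC' k ε h0 h1 w).trans (mul_le_mul_of_nonneg_right ?_ (norm_nonneg _))
  exact Finset.single_le_sum (fun i _ => hC0 i) (Finset.mem_univ k)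

theorem prod_bd {n d : ℕ} (l : Fin d → ((Fin n → ℝ) →ₗ[ℝ] ℝ)) (p : Fin d → ℝ)
    (hp : ∀ k, 0 ≤ p k) (C : ℝ) (hC0 : 0 ≤ C) (ε : ℝ) (w : V n d)
    (hC : ∀ k, |Lf l ε k w| ≤ C * ‖w‖) :
    ‖∏ k, |Lf l ε k w| ^ (p k)‖ ≤ (1 + C * ‖w‖) ^ ⌈∑ k, p k⌉₊ := by
  have hM : 1 ≤ 1 + C * ‖w‖ := by
    have := mul_nonneg hC0 (norm_nonneg w)
    linarith
  have hM0 : 0 < 1 + C * ‖w‖ := by linarith
  rw [Real.norm_eq_abs, abs_of_nonneg (Finset.prod_nonneg fun k _ => by positivity)]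
  calc ∏ k, |Lf l ε k w| ^ (p k) ≤ ∏ k, (1 + C * ‖w‖) ^ (p k) := by
        refine Finset.prod_le_prod (fun k _ => by positivity) fun k _ => ?_
        exact Real.rpow_le_rpow (abs_nonneg _) ((hC k).trans (by linarith)) (hp k)
    _ = (1 + C * ‖w‖) ^ (∑ k, p k) := by
        rw [Real.rpow_sum_of_pos hM0]
    _ ≤ (1 + C * ‖w‖) ^ ((⌈∑ k, p k⌉₊ : ℕ) : ℝ) :=
        Real.rpow_le_rpow_of_exponent_le hM (Nat.le_ceil _)
    _ = (1 + C * ‖w‖) ^ ⌈∑ k, p k⌉₊ := Real.rpow_natCast _ _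

theorem cont_prod {n d : ℕ} (l : Fin d → ((Fin n → ℝ) →ₗ[ℝ] ℝ)) (p : Fin d → ℝ)
    (hp : ∀ k, 0 ≤ p k) (ε : ℝ) :
    Continuous (fun w : V n d => ∏ k, |Lf l ε k w| ^ (p k)) := by
  refine continuous_finsetProd _ (fun k _ => ?_)
  exact ((lim_meas l ε k).abs).rpow_const fun w => Or.inr (hp k)

theorem t_IP (n d : ℕ) (l : Fin d → ((Fin n → ℝ) →ₗ[ℝ] ℝ)) (ε : ℝ) (hε : 0 ≤ ε) (hε1 : ε < 1)
    (p : Fin d → ℝ) (hp : ∀ k, 0 ≤ p k) :
    Integrable (fun w => ∏ k, |Lf l ε k w| ^ (p k)) (mu n d) := by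
  obtain ⟨C, hC0, hC⟩ := dom_bd l
  refine (dom_int n d C ⌈∑ k, p k⌉₊).mono' (cont_prod l p hp ε).aestronglyMeasurable
    (Filter.Eventually.of_forall fun w => ?_)
  exact prod_bd l p hp C hC0 ε w (hC ε hε hε1 w)

theorem t_LIM (n d : ℕ) (l : Fin d → ((Fin n → ℝ) →ₗ[ℝ] ℝ)) (p : Fin d → ℝ)
    (hp : ∀ k, 0 ≤ p k) :
    Filter.Tendsto (fun ε : ℝ => ∫ w, ∏ k, |Lf l ε k w| ^ (p k) ∂(mu n d))
      (nhdsWithin 0 (Set.Ioi 0)) (nhds (∫ g, ∏ k, |l k g| ^ (p k) ∂(gam n))) := by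
  have hg1 := lim_gauss n
  have hg2 := lim_gauss d
  obtain ⟨C, hC0, hC⟩ := dom_bd l
  have hfin : ∫ g, ∏ k, |l k g| ^ (p k) ∂(gam n)
      = ∫ w : V n d, ∏ k, |l k w.1| ^ (p k) ∂(mu n d) := by
    have := integral_fun_fst (μ := gam n) (ν := gam d) (fun g => ∏ k, |l k g| ^ (p k))
    unfold mu
    rw [this]
    simp
  rw [hfin]
  have h01 : Set.Ioo (0 : ℝ) 1 ∈ nhdsWithin (0 : ℝ) (Set.Ioi 0) := Ioo_mem_nhdsGT one_pos
  refine tendsto_integral_filter_of_dominated_convergence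
    (fun w => (1 + C * ‖w‖) ^ ⌈∑ k, p k⌉₊) ?_ ?_ (dom_int n d C _) ?_
  · exact Filter.Eventually.of_forall (fun ε => (cont_prod l p hp ε).aestronglyMeasurable)
  · filter_upwards [h01] with ε hε
    exact Filter.Eventually.of_forall (fun w => prod_bd l p hp C hC0 ε w (hC ε hε.1.le hε.2 w))
  · refine Filter.Eventually.of_forall (fun w => ?_)
    have hc : Continuous (fun ε : ℝ => ∏ k, |Lf l ε k w| ^ (p k)) := by
      refine continuous_finsetProd _ (fun k _ => ?_)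
      refine Continuous.rpow_const ?_ fun w => Or.inr (hp k)
      unfold Lf
      fun_prop
    have := hc.tendsto 0
    have h0 : (∏ k, |Lf l 0 k w| ^ (p k)) = ∏ k, |l k w.1| ^ (p k) := by
      simp [Lf]
    rw [h0] at this
    exact this.mono_left nhdsWithin_le_nhds

theorem pos_limit {d : ℕ} (p : Fin d → ℝ) (c : ℝ)
    (h : ∀ δ : ℝ, 0 < δ → δ < 1 → ∏ k, ((1 + δ) ^ (p k))⁻¹ ≤ c) : 1 ≤ c := by
  have hcont : ContinuousAt (fun δ : ℝ => ∏ k, ((1 + δ) ^ (p k))⁻¹) 0 := by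
    refine tendsto_finsetProd _ (fun k _ => ?_)
    refine ContinuousAt.inv₀ (f := fun δ : ℝ => (1 + δ) ^ (p k)) ?_ ?_
    · refine ContinuousAt.rpow_const (by fun_prop) (Or.inl ?_)
      norm_num
    · simp
  have h0 : (∏ k, ((1 + (0 : ℝ)) ^ (p k))⁻¹) = 1 := by simp
  have ht : Filter.Tendsto (fun δ : ℝ => ∏ k, ((1 + δ) ^ (p k))⁻¹)
      (nhdsWithin 0 (Set.Ioi 0)) (nhds 1) := by
    have := hcont.tendsto
    rw [h0] at this
    exact this.mono_left nhdsWithin_le_nhds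
  refine le_of_tendsto ht ?_
  have : Set.Ioo (0 : ℝ) 1 ∈ nhdsWithin (0 : ℝ) (Set.Ioi 0) :=
    Ioo_mem_nhdsGT one_pos
  filter_upwards [this] with δ hδ
  exact h δ hδ.1 hδ.2

theorem t_F1 (n d : ℕ) (l : Fin d → ((Fin n → ℝ) →ₗ[ℝ] ℝ)) (ε : ℝ) (hε : 0 < ε) (hε1 : ε < 1)
    (p : Fin d → ℝ) (hp : ∀ k, 0 < p k) :
    ∏ k, ∫ w, |Lf l ε k w| ^ (p k) ∂(mu n d) ≤ ∫ w, ∏ k, |Lf l ε k w| ^ (p k) ∂(mu n d) := by
  have hG := t_GP n d l ε hε
  set I : ℝ := ∫ w, ∏ k, |Lf l ε k w| ^ (p k) ∂(mu n d) with hI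
  -- the limit inequality
  have hmain : 1 ≤ (∏ k, rho (p k) (GG l ε k k)) * I := by
    refine pos_limit p _ (fun δ hδ hδ1 => ?_)
    refine (t_M1 n d l ε δ hε hδ hδ1 p hp).trans ?_
    rw [hI, ← integral_const_mul]
    have hint1 : Integrable (fun w => ∏ k, phi δ (p k) (GG l ε k k) (Lf l ε k w)) (mu n d) := by
      refine Integrable.of_bound ?_ (∏ k, (δ ^ (p k))⁻¹) ?_
      · refine Measurable.aestronglyMeasurable ?_
        refine Finset.measurable_prod _ (fun k _ => ?_)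
        exact (t_PB δ (p k) (GG l ε k k) hδ (hp k) (hG k)).1.comp (meas_Lf l ε k)
      · refine Filter.Eventually.of_forall (fun w => ?_)
        rw [Real.norm_eq_abs, Finset.abs_prod]
        refine Finset.prod_le_prod (fun k _ => abs_nonneg _) (fun k _ => ?_)
        have := (t_PB δ (p k) (GG l ε k k) hδ (hp k) (hG k)).2 (Lf l ε k w)
        rw [abs_of_nonneg this.1]
        exact this.2
    have hint2 : Integrable (fun w => (∏ k, rho (p k) (GG l ε k k)) *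
        ∏ k, |Lf l ε k w| ^ (p k)) (mu n d) :=
      (t_IP n d l ε hε.le hε1 p (fun k => (hp k).le)).const_mul _
    refine integral_mono_ae hint1 hint2 ?_
    filter_upwards [t_NZ n d l ε hε] with w hw
    show ∏ k, phi δ (p k) (GG l ε k k) (Lf l ε k w) ≤ (∏ k, rho (p k) (GG l ε k k)) *
        ∏ k, |Lf l ε k w| ^ (p k)
    rw [← Finset.prod_mul_distrib]
    refine Finset.prod_le_prod (fun k _ => ?_) (fun k _ => ?_)
    · exact (t_PHI δ (p k) (GG l ε k k) (Lf l ε k w) hδ (hp k) (hG k) (hw k)).1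
    · exact (t_PHI δ (p k) (GG l ε k k) (Lf l ε k w) hδ (hp k) (hG k) (hw k)).2
  have hm0 : 0 ≤ ∏ k, ∫ w, |Lf l ε k w| ^ (p k) ∂(mu n d) :=
    Finset.prod_nonneg (fun k _ => integral_nonneg (fun w => by positivity))
  have hprod : (∏ k, ∫ w, |Lf l ε k w| ^ (p k) ∂(mu n d)) *
      (∏ k, rho (p k) (GG l ε k k)) = 1 := by
    rw [← Finset.prod_mul_distrib]
    refine Finset.prod_eq_one (fun k _ => ?_)
    rw [mul_comm]
    exact t_MOM n d l ε hε (p k) (hp k) k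
  have h1 := mul_le_mul_of_nonneg_left hmain hm0
  rw [mul_one, ← mul_assoc, hprod, one_mul] at h1
  exact h1

theorem t_F2 (n d : ℕ) (l : Fin d → ((Fin n → ℝ) →ₗ[ℝ] ℝ)) (p : Fin d → ℝ)
    (hp : ∀ k, 0 < p k) :
    ∏ k, ∫ g, |l k g| ^ (p k) ∂(gam n) ≤ ∫ g, ∏ k, |l k g| ^ (p k) ∂(gam n) := by
  -- single factors
  have hone : ∀ k : Fin d, Filter.Tendsto (fun ε : ℝ => ∫ w, |Lf l ε k w| ^ (p k) ∂(mu n d))
      (nhdsWithin 0 (Set.Ioi 0)) (nhds (∫ g, |l k g| ^ (p k) ∂(gam n))) := by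
    intro k
    have h := t_LIM n d l (fun k' => if k' = k then p k else 0) (fun k' => by
      split_ifs
      · exact (hp k).le
      · exact le_rfl)
    have e1 : ∀ x : Fin d → ℝ, ∏ k', |x k'| ^ (if k' = k then p k else 0) = |x k| ^ (p k) := by
      intro x
      rw [Finset.prod_eq_single k]
      · rw [if_pos rfl]
      · intro b _ hb
        rw [if_neg hb, Real.rpow_zero]
      · intro h
        exact absurd (Finset.mem_univ k) h
    have e2 : ∀ (ε : ℝ) (w : V n d),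
        ∏ k', |Lf l ε k' w| ^ (if k' = k then p k else 0) = |Lf l ε k w| ^ (p k) :=
      fun ε w => e1 (fun k' => Lf l ε k' w)
    have e3 : ∀ g : Fin n → ℝ,
        ∏ k', |l k' g| ^ (if k' = k then p k else 0) = |l k g| ^ (p k) :=
      fun g => e1 (fun k' => l k' g)
    simp only [e2, e3] at h
    exact h
  refine le_of_tendsto_of_tendsto (tendsto_finsetProd (Finset.univ : Finset (Fin d))
    (fun k _ => hone k)) (t_LIM n d l p (fun k => (hp k).le)) ?_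
  have h01 : Set.Ioo (0 : ℝ) 1 ∈ nhdsWithin (0 : ℝ) (Set.Ioi 0) := Ioo_mem_nhdsGT one_pos
  filter_upwards [h01] with ε hε
  exact t_F1 n d l ε hε.1 hε.2 p hp

theorem prod_red {d : ℕ} (P : Fin d → Prop) [DecidablePred P] (f : Fin d → ℝ)
    (hf : ∀ k, ¬ P k → f k = 1) :
    ∏ k, f k = ∏ j : Fin (Fintype.card {k // P k}),
      f ((Fintype.equivFin {k // P k}).symm j) := by
  have h1 : ∏ k, f k = ∏ k ∈ Finset.univ.filter P, f k := by
    rw [Finset.prod_filter_of_ne]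
    intro k _ hk
    by_contra h
    exact hk (hf k h)
  rw [h1, Finset.prod_subtype (Finset.univ.filter P) (p := P) (by simp) f]
  exact (Equiv.prod_comp (Fintype.equivFin {k // P k}).symm (fun k => f k.1)).symm

/-- The product inequality for linear forms of a standard Gaussian vector and all nonnegative
real exponents. -/
theorem t_F3 (n d : ℕ) (l : Fin d → ((Fin n → ℝ) →ₗ[ℝ] ℝ)) (p : Fin d → ℝ)
    (hp : ∀ k, 0 ≤ p k) :
    ∏ k, ∫ g, |l k g| ^ (p k) ∂(gam n) ≤ ∫ g, ∏ k, |l k g| ^ (p k) ∂(gam n) := by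
  classical
  have hz : ∀ k, ¬ 0 < p k → p k = 0 := fun k h => le_antisymm (not_lt.1 h) (hp k)
  have h1 : ∏ k, ∫ g, |l k g| ^ (p k) ∂(gam n) =
      ∏ j : Fin (Fintype.card {k // 0 < p k}),
        ∫ g, |l ((Fintype.equivFin {k // 0 < p k}).symm j) g| ^
          (p ((Fintype.equivFin {k // 0 < p k}).symm j)) ∂(gam n) := by
    refine prod_red (fun k => 0 < p k) (fun k => ∫ g, |l k g| ^ (p k) ∂(gam n)) ?_
    intro k hk
    have := hz k hk
    simp [this]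
  have h2 : ∀ g : Fin n → ℝ, ∏ k, |l k g| ^ (p k) =
      ∏ j : Fin (Fintype.card {k // 0 < p k}),
        |l ((Fintype.equivFin {k // 0 < p k}).symm j) g| ^
          (p ((Fintype.equivFin {k // 0 < p k}).symm j)) := by
    intro g
    refine prod_red (fun k => 0 < p k) (fun k => |l k g| ^ (p k)) ?_
    intro k hk
    have := hz k hk
    simp [this]
  rw [h1]
  simp_rw [h2]
  exact t_F2 n (Fintype.card {k // 0 < p k})
    (fun j => l ((Fintype.equivFin {k // 0 < p k}).symm j))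
    (fun j => p ((Fintype.equivFin {k // 0 < p k}).symm j))
    (fun j => ((Fintype.equivFin {k // 0 < p k}).symm j).2)

end Pool.Agent.H581R3.GPR
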