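import Pool.Agent.H581R3.GPR.Defs
import Pool.Agent.H780R2.GP.I2

/-!
# The Gaussian product inequality with real exponents: integrability of `FF`
-/

set_option autoImplicit false
open MeasureTheory ProbabilityTheory H780GP

namespace Pool.Agent.H581R3.GPR

theorem fac_zero_le (δ p : ℝ) (x θ : ℝ) (hδ : 0 < δ) (hp : 0 < p) :
    ‖fac δ p 0 x θ‖ ≤ (δ⁻¹) ^ p := by
  rw [norm_fac, pow_zero, mul_one]
  exact Real.rpow_le_rpow (by positivity) (ratio_le δ x θ hδ) hp.le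

theorem t_I0 (n d : ℕ) (l : Fin d → ((Fin n → ℝ) →ₗ[ℝ] ℝ)) (ε δ : ℝ) (hδ : 0 < δ)
    (p : Fin d → ℝ) (hp : ∀ k, 0 < p k) : Integrable (FF l ε δ p (fun _ => 0)) (PP n d) := by
  have : IsProbabilityMeasure (PP n d) := by unfold PP; infer_instance
  refine Integrable.of_bound (meas_FF l ε δ p _).aestronglyMeasurable (∏ k, (δ⁻¹) ^ (p k)) ?_
  refine Filter.Eventually.of_forall fun Z => ?_
  unfold FF
  rw [norm_prod]
  exact Finset.prod_le_prod (fun _ _ => norm_nonneg _) (fun k _ => fac_zero_le _ _ _ _ hδ (hp k))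

/-- the one-dimensional integral of `(1 + u²)^(-(p+1)/2)` -/
noncomputable def KK (p : ℝ) : ℝ := ∫ u : ℝ, (1 + u ^ 2) ^ (-(p + 1) / 2)

theorem KK_int {p : ℝ} (hp : 0 < p) : Integrable (fun u : ℝ => (1 + u ^ 2) ^ (-(p + 1) / 2)) := by
  have h := integrable_rpow_neg_one_add_norm_sq (E := ℝ) (μ := (volume : Measure ℝ)) (r := p + 1)
    (by simp; exact hp)
  refine h.congr (Filter.Eventually.of_forall fun u => ?_)
  simp only [Real.norm_eq_abs, sq_abs]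

theorem fac_one_norm (δ p : ℝ) (x θ : ℝ) (hx : x ≠ 0) (hδ : 0 < δ) :
    ‖fac δ p 1 x θ‖ = δ⁻¹ ^ (p + 1) * |x|⁻¹ * (1 + (θ / (δ * |x|)) ^ 2) ^ (-(p + 1) / 2) := by
  have hax : 0 < |x| := abs_pos.2 hx
  have hD2 := den_sq δ x θ
  have hb : (0 : ℝ) < 1 + (θ / (δ * |x|)) ^ 2 := by positivity
  have hD : ‖(δ : ℂ) * (x : ℂ) + Complex.I * (θ : ℂ)‖ = δ * |x| * (1 + (θ / (δ * |x|)) ^ 2) ^ (1 / 2 : ℝ) := by
    have h3 : δ ^ 2 * x ^ 2 + θ ^ 2 = (δ * |x|) ^ 2 * (1 + (θ / (δ * |x|)) ^ 2) := by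
      rw [← sq_abs x]
      field_simp
    rw [← Real.sqrt_eq_rpow, ← Real.sqrt_sq (norm_nonneg _), hD2, h3,
      Real.sqrt_mul (by positivity), Real.sqrt_sq (by positivity)]
  rw [norm_fac, pow_one, hD]
  set B := 1 + (θ / (δ * |x|)) ^ 2 with hB
  have e1 : |x| / (δ * |x| * B ^ (1 / 2 : ℝ)) = δ⁻¹ * B ^ (-(1 / 2) : ℝ) := by
    rw [Real.rpow_neg hb.le]
    field_simp
  have e2 : (δ * |x| * B ^ (1 / 2 : ℝ))⁻¹ = δ⁻¹ * |x|⁻¹ * B ^ (-(1 / 2) : ℝ) := by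
    rw [Real.rpow_neg hb.le, mul_inv, mul_inv]
  rw [e1, e2, Real.mul_rpow (by positivity) (by positivity), ← Real.rpow_mul hb.le,
    Real.rpow_add (by positivity), Real.rpow_one]
  have e3 : B ^ (-(p + 1) / 2) = B ^ (-(1 / 2) * p) * B ^ (-(1 / 2) : ℝ) := by
    rw [← Real.rpow_add hb]
    congr 1
    ring
  rw [e3]
  ring

theorem fac_one_x0 (δ p : ℝ) (θ : ℝ) (hp : 0 < p) : ‖fac δ p 1 0 θ‖ = 0 := by
  rw [norm_fac]
  simp [Real.zero_rpow hp.ne']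

theorem one_int (δ ε p : ℝ) (hδ : 0 < δ) (hε : 0 < ε) (hp : 0 < p) (x m : ℝ) :
    ∫⁻ y, ‖fac δ p 1 x (m + ε * y)‖ₑ ∂(gaussianReal 0 1) ≤
      ENNReal.ofReal (δ⁻¹ ^ (p + 1) * (δ / ε * KK p)) := by
  rcases eq_or_ne x 0 with rfl | hx
  · have h0 : ∀ y : ℝ, ‖fac δ p 1 0 (m + ε * y)‖ₑ = 0 := by
      intro y
      rw [← ofReal_norm, fac_one_x0 δ p _ hp, ENNReal.ofReal_zero]
    simp [h0]
  refine (lintegral_mono' I2_gauss_le le_rfl).trans ?_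
  have hax : 0 < |x| := abs_pos.2 hx
  have hc : (0 : ℝ) < ε / (δ * |x|) := by positivity
  have e1 : ∀ y : ℝ, ‖fac δ p 1 x (m + ε * y)‖ = δ⁻¹ ^ (p + 1) * |x|⁻¹ *
      (1 + (m / (δ * |x|) + ε / (δ * |x|) * y) ^ 2) ^ (-(p + 1) / 2) := by
    intro y
    rw [fac_one_norm δ p x _ hx hδ]
    congr 3
    field_simp
  have hi1 : Integrable (fun y : ℝ =>
      (1 + (m / (δ * |x|) + ε / (δ * |x|) * y) ^ 2) ^ (-(p + 1) / 2)) := by
    exact ((KK_int hp).comp_add_left (m / (δ * |x|))).comp_mul_left' hc.ne'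
  have hi2 : Integrable (fun y : ℝ => ‖fac δ p 1 x (m + ε * y)‖) := by
    rw [funext e1]
    exact hi1.const_mul _
  simp_rw [← ofReal_norm]
  rw [← ofReal_integral_eq_lintegral_ofReal hi2
    (Filter.Eventually.of_forall fun y => norm_nonneg _)]
  refine ENNReal.ofReal_le_ofReal (le_of_eq ?_)
  rw [funext e1, integral_const_mul]
  have h4 := Measure.integral_comp_mul_left
    (fun z : ℝ => (1 + (m / (δ * |x|) + z) ^ 2) ^ (-(p + 1) / 2)) (ε / (δ * |x|))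
  have h5 := integral_add_left_eq_self (μ := (volume : Measure ℝ))
    (fun z : ℝ => (1 + z ^ 2) ^ (-(p + 1) / 2)) (m / (δ * |x|))
  rw [h4, h5, smul_eq_mul, abs_of_pos (inv_pos.2 hc)]
  unfold KK
  field_simp

/-- one factor, integrated over one coordinate -/
theorem factor (δ ε : ℝ) (hδ : 0 < δ) (hε : 0 < ε) (p : ℝ) (q : ℕ) (hp : 0 < p)
    (hq : q = 0 ∨ q = 1) : ∃ C : ENNReal, C ≠ ⊤ ∧ ∀ x m : ℝ,
      ∫⁻ y, ‖fac δ p q x (m + ε * y)‖ₑ ∂(gaussianReal 0 1) ≤ C := by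
  rcases hq with rfl | rfl
  · refine ⟨ENNReal.ofReal ((δ⁻¹) ^ p), ENNReal.ofReal_ne_top, fun x m => ?_⟩
    calc ∫⁻ y, ‖fac δ p 0 x (m + ε * y)‖ₑ ∂(gaussianReal 0 1)
        ≤ ∫⁻ _, ENNReal.ofReal ((δ⁻¹) ^ p) ∂(gaussianReal 0 1) := by
          refine lintegral_mono fun y => ?_
          rw [← ofReal_norm]
          exact ENNReal.ofReal_le_ofReal (fac_zero_le δ p x _ hδ hp)
      _ = _ := by simp
  · exact ⟨_, ENNReal.ofReal_ne_top, fun x m => one_int δ ε p hδ hε hp x m⟩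

theorem t_I2 (n d : ℕ) (l : Fin d → ((Fin n → ℝ) →ₗ[ℝ] ℝ)) (ε δ : ℝ) (hε : 0 < ε) (hδ : 0 < δ)
    (p : Fin d → ℝ) (hp : ∀ k, 0 < p k) (i j : Fin d) :
    Integrable (FF l ε δ p (qq i j)) (PP n d) := by
  have hm := meas_FF l ε δ p (qq i j)
  have hq : ∀ k, qq i j k = 0 ∨ qq i j k = 1 := by
    intro k
    unfold qq
    split_ifs
    · exact Or.inr rfl
    · exact Or.inl rfl
  choose C hC hC2 using fun k => factor δ ε hδ hε (p k) (qq i j k) (hp k) (hq k)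
  refine ⟨hm.aestronglyMeasurable, ?_⟩
  have key : ∀ (w : V n d) (a : Fin n → ℝ),
      ∫⁻ y, ‖FF l ε δ p (qq i j) (w, (a, y))‖ₑ ∂(gam d) ≤ ∏ k, C k := by
    intro w a
    have h1 : ∀ y : Fin d → ℝ, ‖FF l ε δ p (qq i j) (w, (a, y))‖ₑ =
        ∏ k, ‖fac δ (p k) (qq i j k) (Lf l ε k w) (l k a + ε * y k)‖ₑ := by
      intro y
      unfold FF
      rw [I2_enorm_prod]
      rfl
    rw [lintegral_congr h1]
    have hmk : ∀ k, Measurable (fun y : ℝ =>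
        ‖fac δ (p k) (qq i j k) (Lf l ε k w) (l k a + ε * y)‖ₑ) := by
      intro k
      refine Measurable.enorm ?_
      exact (meas_fac δ (p k) (qq i j k)).comp (by fun_prop : Measurable
        (fun y : ℝ => ((Lf l ε k w : ℝ), l k a + ε * y)))
    have h2 := lintegral_prod_eq_prod_lintegral_of_indepFun (μ := gam d) Finset.univ
      (fun k (y : Fin d → ℝ) =>
        ‖fac δ (p k) (qq i j k) (Lf l ε k w) (l k a + ε * y k)‖ₑ)
      (iIndepFun_pi (μ := fun _ : Fin d => gaussianReal 0 1)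
        (X := fun k (y : ℝ) => ‖fac δ (p k) (qq i j k) (Lf l ε k w) (l k a + ε * y)‖ₑ)
        fun k => (hmk k).aemeasurable)
      (fun k => (hmk k).comp (measurable_pi_apply k))
    rw [h2]
    refine Finset.prod_le_prod' fun k _ => ?_
    have h3 := (measurePreserving_eval (fun _ : Fin d => gaussianReal 0 1) k).lintegral_comp
      (hmk k)
    have h4 : ∫⁻ y : Fin d → ℝ,
        ‖fac δ (p k) (qq i j k) (Lf l ε k w) (l k a + ε * y k)‖ₑ ∂(gam d) =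
        ∫⁻ y, ‖fac δ (p k) (qq i j k) (Lf l ε k w) (l k a + ε * y)‖ₑ ∂(gaussianReal 0 1) := h3
    rw [h4]
    exact hC2 k _ _
  have hfin : ∏ k, C k < ⊤ := ENNReal.prod_lt_top fun k _ => (hC k).lt_top
  rw [hasFiniteIntegral_iff_enorm]
  refine lt_of_le_of_lt ?_ hfin
  unfold PP
  rw [lintegral_prod _ hm.enorm.aemeasurable]
  have key2 : ∀ w : V n d, ∫⁻ h, ‖FF l ε δ p (qq i j) (w, h)‖ₑ ∂(mu n d) ≤ ∏ k, C k := by
    intro w
    have hm2 : Measurable (fun h : V n d => ‖FF l ε δ p (qq i j) (w, h)‖ₑ) :=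
      hm.enorm.comp (by fun_prop)
    unfold mu
    rw [lintegral_prod _ hm2.aemeasurable]
    calc _ ≤ ∫⁻ _ : Fin n → ℝ, ∏ k, C k ∂(gam n) := lintegral_mono fun a => key w a
      _ = _ := by simp
  calc _ ≤ ∫⁻ _ : V n d, ∏ k, C k ∂(mu n d) := lintegral_mono fun w => key2 w
    _ = _ := by simp

end Pool.Agent.H581R3.GPR
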