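import Pool.Agent.H581R3.GPR.KEY
import Pool.Agent.H581R3.GPR.AB
import Pool.Agent.H581R3.GPR.Int
import Pool.Agent.H780R2.GP.GP
import Pool.Agent.H780R2.GP.M1

/-!
# The Gaussian product inequality with real exponents: bounds for phi, the main inequality
-/

set_option autoImplicit false
open MeasureTheory ProbabilityTheory H780GP

namespace Pool.Agent.H581R3.GPR

theorem PB_wt_integral (δ p : ℝ) (hδ : 0 < δ) (hp : 0 < p) :
    ∫ a in Set.Ioi (0 : ℝ), wt δ p a = (δ ^ p)⁻¹ := by
  have h := Real.integral_rpow_mul_exp_neg_mul_Ioi (a := p) (r := δ) hp hδ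
  have h2 : ∫ a in Set.Ioi (0 : ℝ), wt δ p a =
      ∫ t in Set.Ioi (0 : ℝ), (t ^ (p - 1) * Real.exp (-(δ * t))) / Real.Gamma p := rfl
  rw [h2, integral_div, h]
  have hG : Real.Gamma p ≠ 0 := (Real.Gamma_pos_of_pos hp).ne'
  rw [mul_div_assoc, div_self hG, mul_one, one_div, Real.inv_rpow hδ.le]

theorem t_PB (δ p G : ℝ) (hδ : 0 < δ) (hp : 0 < p) (hG : 0 < G) :
    Measurable (fun x => phi δ p G x) ∧ ∀ x, 0 ≤ phi δ p G x ∧ phi δ p G x ≤ (δ ^ p)⁻¹ := by
  have hGam : 0 < Real.Gamma p := Real.Gamma_pos_of_pos hp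
  have hint := PB_wt_integral δ p hδ hp
  have hI : IntegrableOn (fun a => wt δ p a) (Set.Ioi 0) := int_wt δ hδ p hp
  have hwt : ∀ a ∈ Set.Ioi (0 : ℝ), 0 ≤ wt δ p a := by
    intro a ha
    exact wt_nonneg δ p hp ha
  refine ⟨?_, ?_⟩
  · have hm : Measurable (Function.uncurry fun (x a : ℝ) =>
        wt δ p a * Real.exp (-(1 / 2) * (G * (a / x) ^ 2))) := by
      unfold wt Function.uncurry
      fun_prop
    exact (hm.stronglyMeasurable.integral_prod_right (ν := volume.restrict (Set.Ioi 0))).measurable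
  · intro x
    have h1 : ∀ a ∈ Set.Ioi (0 : ℝ),
        0 ≤ wt δ p a * Real.exp (-(1 / 2) * (G * (a / x) ^ 2)) :=
      fun a ha => mul_nonneg (hwt a ha) (Real.exp_pos _).le
    refine ⟨setIntegral_nonneg measurableSet_Ioi h1, ?_⟩
    rw [← hint]
    unfold phi
    refine integral_mono_of_nonneg ?_ hI ?_
    · exact (ae_restrict_iff' measurableSet_Ioi).mpr (Filter.Eventually.of_forall h1)
    · refine (ae_restrict_iff' measurableSet_Ioi).mpr (Filter.Eventually.of_forall ?_)
      intro a ha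
      have h2 : Real.exp (-(1 / 2) * (G * (a / x) ^ 2)) ≤ 1 := by
        rw [Real.exp_le_one_iff]
        have : 0 ≤ G * (a / x) ^ 2 := by positivity
        linarith
      calc wt δ p a * Real.exp (-(1 / 2) * (G * (a / x) ^ 2)) ≤ wt δ p a * 1 :=
            mul_le_mul_of_nonneg_left h2 (hwt a ha)
        _ = wt δ p a := mul_one _

theorem PHI_int (p : ℝ) (hp : -1 < p) (c : ℝ) (hc : 0 < c) :
    IntegrableOn (fun a : ℝ => a ^ p * Real.exp (-c * a ^ 2)) (Set.Ioi 0) :=
  integrableOn_rpow_mul_exp_neg_mul_sq (b := c) hc (s := p) hp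

theorem t_PHI (δ p G x : ℝ) (hδ : 0 < δ) (hp : 0 < p) (hG : 0 < G) (hx : x ≠ 0) :
    0 ≤ phi δ p G x ∧ phi δ p G x ≤ rho p G * |x| ^ p := by
  have hΓ : 0 < Real.Gamma p := Real.Gamma_pos_of_pos hp
  have hwt : ∀ a : ℝ, 0 < a → 0 ≤ wt δ p a := fun a ha => wt_nonneg δ p hp ha
  refine ⟨?_, ?_⟩
  · unfold phi
    refine setIntegral_nonneg measurableSet_Ioi fun a ha => ?_
    exact mul_nonneg (hwt a ha) (Real.exp_nonneg _)
  · have hx2 : 0 < x ^ 2 := by positivity
    have hax : 0 < |x| := abs_pos.2 hx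
    have hcpos : 0 < G / (2 * x ^ 2) := by positivity
    have h1 : phi δ p G x ≤
        ∫ a in Set.Ioi (0 : ℝ), (a ^ (p - 1) * Real.exp (-(G / (2 * x ^ 2)) * a ^ 2)) /
          Real.Gamma p := by
      unfold phi
      refine integral_mono_of_nonneg ?_ ((PHI_int (p - 1) (by linarith) _ hcpos).div_const _) ?_
      · refine (ae_restrict_iff' measurableSet_Ioi).2 (Filter.Eventually.of_forall fun a ha => ?_)
        exact mul_nonneg (hwt a ha) (Real.exp_nonneg _)
      · refine (ae_restrict_iff' measurableSet_Ioi).2 (Filter.Eventually.of_forall fun a ha => ?_)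
        have ha' : 0 < a := ha
        have e1 : Real.exp (-(δ * a)) ≤ 1 := Real.exp_le_one_iff.2 (by
          have := mul_pos hδ ha'
          linarith)
        have e2 : -(1 / 2) * (G * (a / x) ^ 2) = -(G / (2 * x ^ 2)) * a ^ 2 := by
          field_simp
        show wt δ p a * Real.exp (-(1 / 2) * (G * (a / x) ^ 2)) ≤ _
        rw [e2]
        unfold wt
        rw [div_mul_eq_mul_div]
        refine div_le_div_of_nonneg_right ?_ hΓ.le
        refine mul_le_mul_of_nonneg_right ?_ (Real.exp_nonneg _)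
        exact mul_le_of_le_one_right (by positivity) e1
    have h2 := integral_comp_mul_left_Ioi (fun b : ℝ => b ^ (p - 1) / Real.Gamma p *
      Real.exp (-(1 / 2) * (G * b ^ 2))) 0 (inv_pos.2 hax)
    rw [mul_zero, inv_inv, smul_eq_mul] at h2
    have h3 : ∀ a ∈ Set.Ioi (0 : ℝ), (a ^ (p - 1) * Real.exp (-(G / (2 * x ^ 2)) * a ^ 2)) /
        Real.Gamma p = |x| ^ (p - 1) * ((|x|⁻¹ * a) ^ (p - 1) / Real.Gamma p *
          Real.exp (-(1 / 2) * (G * (|x|⁻¹ * a) ^ 2))) := by
      intro a ha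
      have ha' : 0 < a := ha
      have e1 : -(1 / 2) * (G * (|x|⁻¹ * a) ^ 2) = -(G / (2 * x ^ 2)) * a ^ 2 := by
        rw [mul_pow, inv_pow, sq_abs]
        field_simp
      have e2 : |x| ^ (p - 1) * (|x|⁻¹ * a) ^ (p - 1) = a ^ (p - 1) := by
        rw [← Real.mul_rpow hax.le (by positivity)]
        congr 1
        field_simp
      rw [e1, ← e2]
      ring
    refine h1.trans (le_of_eq ?_)
    rw [setIntegral_congr_fun measurableSet_Ioi h3, integral_const_mul, h2]
    have e4 : |x| ^ p = |x| ^ (p - 1) * |x| := by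
      rw [← Real.rpow_add_one hax.ne']
      congr 1
      ring
    rw [e4]
    unfold rho
    ring

theorem t_M1 (n d : ℕ) (l : Fin d → ((Fin n → ℝ) →ₗ[ℝ] ℝ)) (ε δ : ℝ) (hε : 0 < ε) (hδ : 0 < δ)
    (hδ1 : δ < 1) (p : Fin d → ℝ) (hp : ∀ k, 0 < p k) :
    ∏ k, ((1 + δ) ^ (p k))⁻¹ ≤ ∫ w, (∏ k, phi δ (p k) (GG l ε k k) (Lf l ε k w)) ∂(mu n d) := by
  have hNZ := t_NZ
  have hGP := t_GP
  haveI := P_M1.prob_mu n d
  let A : (Fin d → ℕ) → V n d → ℂ := fun q w =>
    ∫ h, (∏ k, fac δ (p k) (q k) (Lf l ε k w) (Lf l ε k h)) ∂(mu n d)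
  have hA : ∀ q, Integrable (FF l ε δ p q) (PP n d) → Integrable (fun w => (A q w).re) (mu n d) ∧
      ∫ w, (A q w).re ∂(mu n d) =
        (∏ k, (if q k = 0 then ((((1 + δ) ^ (p k))⁻¹ : ℝ) : ℂ) else 0) : ℂ).re := by
    intro q hq
    have h1 : Integrable (A q) (mu n d) := by
      have h2 : Integrable (FF l ε δ p q) ((mu n d).prod (mu n d)) := hq
      exact h2.integral_prod_left
    have h3 : ∫ Z, FF l ε δ p q Z ∂(PP n d) = ∫ w, A q w ∂(mu n d) := by
      have h2 : Integrable (FF l ε δ p q) ((mu n d).prod (mu n d)) := hq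
      unfold PP
      rw [integral_prod _ h2]
      rfl
    refine ⟨h1.re, ?_⟩
    rw [← t_AB n d l ε δ hε hδ hδ1 p hp q hq, h3]
    exact integral_re h1
  obtain ⟨h0i, h0v⟩ := hA (fun _ => 0) (t_I0 n d l ε δ hδ p hp)
  have h0v' : ∫ w, (A (fun _ => 0) w).re ∂(mu n d) = ∏ k, ((1 + δ) ^ (p k))⁻¹ := by
    rw [h0v]
    simp only [if_true]
    rw [← Complex.ofReal_prod, Complex.ofReal_re]
  have h2 : ∀ i j : Fin d, i ≠ j → Integrable (fun w => (A (qq i j) w).re) (mu n d) ∧
      ∫ w, (A (qq i j) w).re ∂(mu n d) = 0 := by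
    intro i j hij
    obtain ⟨h3, h4⟩ := hA (qq i j) (t_I2 n d l ε δ hε hδ p hp i j)
    refine ⟨h3, ?_⟩
    rw [h4, Finset.prod_eq_zero (Finset.mem_univ i)]
    · simp
    · rw [if_neg]
      simp [qq]
  -- the left hand side
  let c : Fin d → Fin d → ℝ := fun i j => GG l ε i j * p i * p j
  let T : Fin d → Fin d → V n d → ℝ := fun i j w =>
    if i = j then 0 else c i j * (A (qq i j) w).re
  have hT : ∀ i j, Integrable (T i j) (mu n d) ∧ ∫ w, T i j w ∂(mu n d) = 0 := by
    intro i j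
    by_cases hij : i = j
    · have : T i j = fun _ => 0 := by
        funext w
        simp only [T]
        rw [if_pos hij]
      rw [this]
      exact ⟨integrable_zero _ _ _, integral_zero _ _⟩
    · have : T i j = fun w => c i j * (A (qq i j) w).re := by
        funext w
        simp only [T]
        rw [if_neg hij]
      rw [this]
      refine ⟨(h2 i j hij).1.const_mul _, ?_⟩
      rw [integral_const_mul, (h2 i j hij).2, mul_zero]
  have hS : Integrable (fun w => ∑ i, ∑ j, T i j w) (mu n d) :=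
    integrable_finsetSum _ fun i _ => integrable_finsetSum _ fun j _ => (hT i j).1
  have hSv : ∫ w, ∑ i, ∑ j, T i j w ∂(mu n d) = 0 := by
    rw [integral_finsetSum _ fun i _ => integrable_finsetSum _ fun j _ => (hT i j).1]
    apply Finset.sum_eq_zero
    intro i _
    rw [integral_finsetSum _ fun j _ => (hT i j).1]
    exact Finset.sum_eq_zero fun j _ => (hT i j).2
  have hL : Integrable (fun w => (A (fun _ => 0) w).re + (1 / 2) * ∑ i, ∑ j, T i j w) (mu n d) :=
    h0i.add (hS.const_mul _)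
  have hLv : ∫ w, ((A (fun _ => 0) w).re + (1 / 2) * ∑ i, ∑ j, T i j w) ∂(mu n d) =
      ∏ k, ((1 + δ) ^ (p k))⁻¹ := by
    rw [integral_add h0i (hS.const_mul _), integral_const_mul, hSv, h0v']
    ring
  -- the right hand side
  have hR : Integrable (fun w => ∏ k, phi δ (p k) (GG l ε k k) (Lf l ε k w)) (mu n d) := by
    have hm : Measurable (fun w : V n d => ∏ k, phi δ (p k) (GG l ε k k) (Lf l ε k w)) := by
      apply Finset.measurable_fun_prod
      intro k _
      exact (t_PB δ (p k) (GG l ε k k) hδ (hp k) (hGP n d l ε hε k)).1.comp (meas_Lf l ε k)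
    refine Integrable.of_bound hm.aestronglyMeasurable (∏ k, (δ ^ (p k))⁻¹) ?_
    refine Filter.Eventually.of_forall fun w => ?_
    rw [Real.norm_eq_abs, Finset.abs_prod]
    apply Finset.prod_le_prod
    · intro k _
      exact abs_nonneg _
    · intro k _
      have h := (t_PB δ (p k) (GG l ε k k) hδ (hp k) (hGP n d l ε hε k)).2 (Lf l ε k w)
      rw [abs_of_nonneg h.1]
      exact h.2
  rw [← hLv]
  apply integral_mono_ae hL hR
  filter_upwards [hNZ n d l ε hε] with w hw
  have h := t_KEY n d l ε δ hδ p hp (fun k => Lf l ε k w) hw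
  exact h

end Pool.Agent.H581R3.GPR
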