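import Mathlib

/-!
# A centered Gaussian measure on `Fin d → ℝ` is a linear image of the standard one
-/

set_option autoImplicit false
open MeasureTheory ProbabilityTheory

namespace Pool.Agent.H581R3.GPR.Rep

open WithLp
open scoped MatrixOrder

/-- the covariance matrix -/
noncomputable def cm {d : ℕ} (μ : Measure (Fin d → ℝ)) : Matrix (Fin d) (Fin d) ℝ :=
  Matrix.of fun i j => cov[fun x : Fin d → ℝ => x i, fun x : Fin d → ℝ => x j; μ]

theorem memLp_coord {d : ℕ} (μ : Measure (Fin d → ℝ)) [IsGaussian μ] (i : Fin d) :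
    MemLp (fun x : Fin d → ℝ => x i) 2 μ := by
  have h := IsGaussian.memLp_id μ 2 (by norm_num)
  exact MemLp.eval h i

theorem bil {d : ℕ} (μ : Measure (Fin d → ℝ)) [IsGaussian μ] (x y : EuclideanSpace ℝ (Fin d)) :
    covarianceBilin (μ.map (fun ω => toLp 2 ω)) x y = x.ofLp ⬝ᵥ (cm μ).mulVec y.ofLp := by
  have h := covarianceBilin_apply_pi (μ := μ) (X := fun i (ω : Fin d → ℝ) => ω i)
    (fun i => memLp_coord μ i) x y
  have h2 : (fun ω : Fin d → ℝ => toLp 2 (fun i => ω i)) = fun ω => toLp 2 ω := rfl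
  rw [h2] at h
  rw [h]
  simp only [dotProduct, Matrix.mulVec, Finset.mul_sum, cm, Matrix.of_apply]
  refine Finset.sum_congr rfl fun i _ => Finset.sum_congr rfl fun j _ => ?_
  ring

theorem psd {d : ℕ} (μ : Measure (Fin d → ℝ)) [IsGaussian μ] : (cm μ).PosSemidef := by
  rw [Matrix.posSemidef_iff_dotProduct_mulVec]
  refine ⟨?_, fun x => ?_⟩
  · ext i j
    simp only [cm, Matrix.conjTranspose_apply, Matrix.of_apply, star_trivial]
    exact covariance_comm _ _
  · have h := bil μ (toLp 2 x) (toLp 2 x)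
    simp only [star_trivial]
    have h2 : 0 ≤ covarianceBilin (μ.map (fun ω => toLp 2 ω)) (toLp 2 x) (toLp 2 x) :=
      covarianceBilin_self_nonneg _
    rw [h] at h2
    exact h2

/-- A centered Gaussian measure is the image of the standard Gaussian measure under a matrix. -/
theorem rep {d : ℕ} (μ : Measure (Fin d → ℝ)) [IsGaussian μ] (h0 : ∫ x, x ∂μ = 0) :
    ∃ A : Matrix (Fin d) (Fin d) ℝ,
      μ = (Measure.pi fun _ : Fin d => gaussianReal 0 1).map (fun g => A.mulVec g) := by
  refine ⟨CFC.sqrt (cm μ), ?_⟩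
  set E := EuclideanSpace ℝ (Fin d)
  have hS := psd μ
  have hG : IsGaussian (μ.map (fun ω => toLp 2 ω : (Fin d → ℝ) → E)) := by
    have : (fun ω => toLp 2 ω : (Fin d → ℝ) → E) =
        ⇑((EuclideanSpace.equiv (Fin d) ℝ).symm : (Fin d → ℝ) →L[ℝ] E) := by
      ext x i
      simp
    rw [this]
    infer_instance
  have h1 : μ.map (fun ω => toLp 2 ω : (Fin d → ℝ) → E) = multivariateGaussian 0 (cm μ) := by
    apply IsGaussian.ext
    · rw [integral_id_multivariateGaussian']
      simp only [id]
      rw [integral_map (by fun_prop) (by fun_prop)]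
      have h2 := ContinuousLinearMap.integral_comp_comm (μ := μ)
        ((EuclideanSpace.equiv (Fin d) ℝ).symm : (Fin d → ℝ) →L[ℝ] E)
        (φ := fun x => x) IsGaussian.integrable_fun_id
      rw [h0, map_zero] at h2
      exact h2
    · ext x y
      rw [bil μ x y, covarianceBilin_multivariateGaussian hS]
  have h2 : μ = (μ.map (fun ω => toLp 2 ω : (Fin d → ℝ) → E)).map (fun x => ofLp x) := by
    rw [Measure.map_map (by fun_prop) (by fun_prop)]
    have : ((fun x : E => ofLp x) ∘ fun ω => toLp 2 ω) = (id : (Fin d → ℝ) → (Fin d → ℝ)) := by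
      ext x i
      rfl
    rw [this, Measure.map_id]
  conv_lhs => rw [h2, h1]
  unfold multivariateGaussian
  rw [← map_pi_eq_stdGaussian, Measure.map_map (by fun_prop) (by fun_prop),
    Measure.map_map (by fun_prop) (by fun_prop)]
  congr 1
  ext g i
  simp [Matrix.ofLp_toEuclideanCLM]

end Pool.Agent.H581R3.GPR.Rep
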